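import Pool.Agent.Lib.MP_fa837f_gt.TS.Iface

/-!
Module BASIC of the project TS.
-/

set_option autoImplicit false

open MeasureTheory Set Filter Topology
open scoped Pointwise

namespace Pool.Agent.Lib.MP_fa837f_gt.TS.H53

open Pool.Agent.Lib.MP_fa837f_gt.TS

section

variable {k : ℕ} {ι : Type} [Fintype ι] (L : (Fin k → ℝ) →ₗ[ℝ] (ι → ℝ))

/-- The body. -/
def body (t : ι → ℝ) : Set (Fin k → ℝ) := {y | ∀ i, |L y i| ≤ Real.exp (t i)}

theorem cont_L (i : ι) : Continuous fun y : Fin k → ℝ => L y i :=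
  (continuous_apply i).comp L.continuous_of_finiteDimensional

theorem body_finite (hL : Function.Injective L) (t : ι → ℝ) : volume (body L t) ≠ ⊤ := by
  obtain ⟨K, hK, hanti⟩ := (LinearMap.injective_iff_antilipschitz L).1 hL
  refine ne_of_lt (lt_of_le_of_lt (measure_mono (t := Metric.closedBall 0
    (K * ∑ i, Real.exp (t i))) fun y hy => ?_)
    (isCompact_closedBall 0 _).measure_lt_top)
  have h1 := hanti.le_mul_dist y 0
  rw [map_zero, dist_zero_right, dist_zero_right] at h1
  rw [mem_closedBall_zero_iff]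
  refine h1.trans (mul_le_mul_of_nonneg_left ?_ K.2)
  refine (pi_norm_le_iff_of_nonneg (Finset.sum_nonneg fun i _ => (Real.exp_pos _).le)).2
    fun i => ?_
  rw [Real.norm_eq_abs]
  exact (hy i).trans (Finset.single_le_sum (f := fun i => Real.exp (t i))
    (fun i _ => (Real.exp_pos _).le) (Finset.mem_univ i))

theorem body_pos (t : ι → ℝ) : 0 < volume (body L t) := by
  have hopen : IsOpen {y : Fin k → ℝ | ∀ i, |L y i| < Real.exp (t i)} := by
    have : {y : Fin k → ℝ | ∀ i, |L y i| < Real.exp (t i)} =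
        ⋂ i, {y | |L y i| < Real.exp (t i)} := by ext; simp
    rw [this]
    exact isOpen_iInter_of_finite fun i => isOpen_lt (cont_L L i).abs continuous_const
  have h0 : (0 : Fin k → ℝ) ∈ {y : Fin k → ℝ | ∀ i, |L y i| < Real.exp (t i)} := by
    intro i
    simp [Real.exp_pos]
  exact (hopen.measure_pos volume ⟨0, h0⟩).trans_le (measure_mono fun y hy i => (hy i).le)

theorem body_mono {s t : ι → ℝ} (h : ∀ i, s i ≤ t i) : body L s ⊆ body L t :=
  fun _ hy i => (hy i).trans (Real.exp_le_exp.2 (h i))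

theorem body_smul (t : ι → ℝ) (s : ℝ) :
    body L (fun i => t i + s) = Real.exp s • body L t := by
  ext y
  rw [Set.mem_smul_set_iff_inv_smul_mem₀ (Real.exp_pos s).ne']
  refine forall_congr' fun i => ?_
  rw [map_smul, Pi.smul_apply, smul_eq_mul, abs_mul, abs_inv, abs_of_pos (Real.exp_pos s),
    Real.exp_add, inv_mul_le_iff₀ (Real.exp_pos s), mul_comm (Real.exp s)]

theorem basic : BasicStatement := by
  intro k ι _ L hL
  have hv : ∀ t : ι → ℝ, Vol L t = (volume (body L t)).toReal := fun t => rfl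
  refine ⟨body_finite L hL, fun t => ?_, fun s t h => ?_, fun t s => ?_⟩
  · exact ENNReal.toReal_pos (body_pos L t).ne' (body_finite L hL t)
  · exact ENNReal.toReal_mono (body_finite L hL t) (measure_mono (body_mono L h))
  · rw [hv, hv, body_smul, Measure.addHaar_smul, ENNReal.toReal_mul,
      ENNReal.toReal_ofReal (abs_nonneg _), Module.finrank_fin_fun, abs_of_pos (pow_pos
      (Real.exp_pos s) k), ← Real.exp_nat_mul]

end

end Pool.Agent.Lib.MP_fa837f_gt.TS.H53
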