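import Pool.Agent.Lib.MP_fa837f_gt.TS.H53.Basic

/-!
Module MIX of the project TS.
-/

set_option autoImplicit false

open MeasureTheory Set Filter Topology

namespace Pool.Agent.Lib.MP_fa837f_gt.TS.H53

open Pool.Agent.Lib.MP_fa837f_gt.TS

/-- The weight in one variable. -/
noncomputable def wg (p r : ℝ) : ℝ := p * Real.exp (p * r - Real.exp (p * r))

theorem wg_cont (p : ℝ) : Continuous (wg p) := by
  unfold wg
  fun_prop

theorem wg_pos {p : ℝ} (hp : 1 ≤ p) (r : ℝ) : 0 < wg p r :=
  mul_pos (by linarith) (Real.exp_pos _)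

theorem int_exp_neg_abs : Integrable fun r : ℝ => Real.exp (-|r|) := by
  rw [← integrableOn_univ, ← Iic_union_Ioi (a := (0 : ℝ))]
  refine IntegrableOn.union ?_ ?_
  · refine (integrableOn_exp_Iic 0).congr_fun (fun r hr => ?_) measurableSet_Iic
    rw [abs_of_nonpos hr, neg_neg]
  · refine (integrableOn_exp_mul_Ioi (a := -1) (by norm_num) 0).congr_fun (fun r hr => ?_)
      measurableSet_Ioi
    simp only []
    rw [abs_of_pos hr, neg_one_mul]

theorem wg_bound {p : ℝ} (hp : 1 ≤ p) {c : ℝ} (_ : 0 ≤ c) (r : ℝ) :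
    Real.exp (c * max r 0) * wg p r ≤ p * Real.exp ((c + p + 1) ^ 2 / 2) * Real.exp (-|r|) := by
  unfold wg
  have h : c * max r 0 + (p * r - Real.exp (p * r)) ≤ (c + p + 1) ^ 2 / 2 + -|r| := by
    rcases le_total r 0 with hr | hr
    · rw [max_eq_right hr, abs_of_nonpos hr, mul_zero]
      have h1 := Real.exp_pos (p * r)
      nlinarith [sq_nonneg (c + p + 1), mul_nonneg (sub_nonneg.2 hp) (neg_nonneg.2 hr)]
    · rw [max_eq_left hr, abs_of_nonneg hr]
      have h1 : 1 + p * r + (p * r) ^ 2 / 2 ≤ Real.exp (p * r) :=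
        Real.quadratic_le_exp_of_nonneg (mul_nonneg (by linarith) hr)
      have h2 : r ^ 2 ≤ (p * r) ^ 2 := by
        rw [mul_pow]
        exact le_mul_of_one_le_left (sq_nonneg r) (one_le_pow₀ hp)
      nlinarith [sq_nonneg (c + p + 1 - r)]
  calc Real.exp (c * max r 0) * (p * Real.exp (p * r - Real.exp (p * r)))
      = p * Real.exp (c * max r 0 + (p * r - Real.exp (p * r))) := by
        rw [Real.exp_add]; ring
    _ ≤ p * Real.exp ((c + p + 1) ^ 2 / 2 + -|r|) :=
        mul_le_mul_of_nonneg_left (Real.exp_le_exp.2 h) (by linarith)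
    _ = _ := by rw [Real.exp_add]; ring

theorem wg_int {p : ℝ} (hp : 1 ≤ p) {c : ℝ} (hc : 0 ≤ c) :
    Integrable fun r : ℝ => Real.exp (c * max r 0) * wg p r := by
  refine (int_exp_neg_abs.const_mul (p * Real.exp ((c + p + 1) ^ 2 / 2))).mono' ?_ ?_
  · refine Continuous.aestronglyMeasurable ?_
    exact (by fun_prop : Continuous fun r : ℝ => Real.exp (c * max r 0)).mul (wg_cont p)
  · refine Eventually.of_forall fun r => ?_
    rw [Real.norm_of_nonneg (mul_nonneg (Real.exp_pos _).le (wg_pos hp r).le)]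
    exact wg_bound hp hc r

theorem wg_int0 {p : ℝ} (hp : 1 ≤ p) : Integrable (wg p) := by
  have h := wg_int hp (le_refl (0 : ℝ))
  simpa using h

theorem wg_deriv (p r : ℝ) : HasDerivAt (fun x => -Real.exp (-Real.exp (p * x))) (wg p r) r := by
  have h1 : HasDerivAt (fun x : ℝ => p * x) p r := by
    simpa using (hasDerivAt_id r).const_mul p
  have h2 := ((h1.exp).neg.exp).neg
  have h3 : wg p r = -(Real.exp (-Real.exp (p * r)) * -(Real.exp (p * r) * p)) := by
    unfold wg
    rw [sub_eq_add_neg, Real.exp_add]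
    ring
  rw [h3]
  exact h2

theorem wg_top {p : ℝ} (hp : 1 ≤ p) :
    Tendsto (fun x => -Real.exp (-Real.exp (p * x))) atTop (𝓝 0) := by
  have h1 : Tendsto (fun x : ℝ => p * x) atTop atTop :=
    tendsto_id.const_mul_atTop (by linarith)
  have h2 := (Real.tendsto_exp_atTop.comp h1)
  have h3 := (Real.tendsto_exp_neg_atTop_nhds_zero.comp h2).neg
  rw [neg_zero] at h3
  exact h3

theorem wg_bot {p : ℝ} (hp : 1 ≤ p) :
    Tendsto (fun x => -Real.exp (-Real.exp (p * x))) atBot (𝓝 (-1)) := by
  have h1 : Tendsto (fun x : ℝ => p * x) atBot atBot :=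
    tendsto_id.const_mul_atBot (by linarith)
  have h2 := (Real.tendsto_exp_atBot.comp h1).neg
  have h3 := ((Real.continuous_exp.tendsto _).comp h2).neg
  rw [neg_zero, Real.exp_zero] at h3
  exact h3

/-- The one variable integral. -/
theorem one_dim {p : ℝ} (hp : 1 ≤ p) (x : ℝ) :
    ∫ r : ℝ, (if |x| ≤ Real.exp r then wg p r else 0) = Real.exp (-|x| ^ p) := by
  rcases eq_or_ne x 0 with rfl | hx
  · have h1 : (fun r : ℝ => if |(0 : ℝ)| ≤ Real.exp r then wg p r else 0) = wg p := by
      funext r
      rw [if_pos]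
      rw [abs_zero]
      exact (Real.exp_pos r).le
    rw [h1, integral_of_hasDerivAt_of_tendsto (wg_deriv p) (wg_int0 hp) (wg_bot hp) (wg_top hp),
      abs_zero, Real.zero_rpow (by linarith)]
    simp
  · have hx' : 0 < |x| := abs_pos.2 hx
    have h1 : (fun r : ℝ => if |x| ≤ Real.exp r then wg p r else 0) =
        (Ici (Real.log |x|)).indicator (wg p) := by
      funext r
      by_cases h : |x| ≤ Real.exp r
      · rw [if_pos h, indicator_of_mem]
        exact (Real.log_le_iff_le_exp hx').2 h
      · rw [if_neg h, indicator_of_notMem]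
        exact fun h' => h ((Real.log_le_iff_le_exp hx').1 h')
    rw [h1, integral_indicator measurableSet_Ici, integral_Ici_eq_integral_Ioi,
      integral_Ioi_of_hasDerivAt_of_nonneg' (fun r _ => wg_deriv p r)
        (fun r _ => (wg_pos hp r).le) (wg_top hp)]
    rw [Real.rpow_def_of_pos hx', mul_comm p]
    simp

section

variable {k n : ℕ} (L : (Fin k → ℝ) →ₗ[ℝ] (Fin n → ℝ)) (p : ℝ) (t : Fin n → ℝ)

open Classical in
/-- The integrand on the product. -/
noncomputable def GG (z : (Fin k → ℝ) × (Fin n → ℝ)) : ℝ :=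
  ∏ i, (if |Real.exp (-(t i)) * L z.1 i| ≤ Real.exp (z.2 i) then wg p (z.2 i) else 0)

theorem GG_meas : Measurable (GG L p t) := by
  unfold GG
  refine Finset.measurable_fun_prod _ fun i _ => ?_
  refine Measurable.ite ?_ ?_ measurable_const
  · refine measurableSet_le ?_ ?_
    · exact (((cont_L L i).comp continuous_fst).const_mul _).abs.measurable
    · exact (Real.continuous_exp.comp ((continuous_apply i).comp continuous_snd)).measurable
  · exact ((wg_cont p).comp ((continuous_apply i).comp continuous_snd)).measurable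

theorem GG_inner {p : ℝ} (hp : 1 ≤ p) (y : Fin k → ℝ) :
    ∫ r : Fin n → ℝ, GG L p t (y, r) = Real.exp (-∑ i, |Real.exp (-(t i)) * L y i| ^ p) := by
  unfold GG
  rw [integral_fintype_prod_volume_eq_prod (fun (i : Fin n) (q : ℝ) =>
    if |Real.exp (-(t i)) * L y i| ≤ Real.exp q then wg p q else 0), ← Finset.sum_neg_distrib,
    Real.exp_sum]
  exact Finset.prod_congr rfl fun i _ => one_dim hp _

theorem GG_eq (y : Fin k → ℝ) (r : Fin n → ℝ) :
    GG L p t (y, r) = (body L (fun i => t i + r i)).indicator (fun _ => ∏ i, wg p (r i)) y := by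
  unfold GG
  have hiff : ∀ i, |Real.exp (-(t i)) * L y i| ≤ Real.exp (r i) ↔
      |L y i| ≤ Real.exp (t i + r i) := by
    intro i
    rw [abs_mul, abs_of_pos (Real.exp_pos _), Real.exp_neg, Real.exp_add,
      inv_mul_le_iff₀ (Real.exp_pos _)]
  by_cases h : y ∈ body L (fun i => t i + r i)
  · rw [indicator_of_mem h]
    exact Finset.prod_congr rfl fun i _ => if_pos ((hiff i).2 (h i))
  · rw [indicator_of_notMem h]
    obtain ⟨i, hi⟩ : ∃ i, ¬ |L y i| ≤ Real.exp (t i + r i) := by
      by_contra h'
      push Not at h'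
      exact h h'
    exact Finset.prod_eq_zero (Finset.mem_univ i) (if_neg fun h' => hi ((hiff i).1 h'))

theorem body_meas (s : Fin n → ℝ) : MeasurableSet (body L s) := by
  have : body L s = ⋂ i, {y | |L y i| ≤ Real.exp (s i)} := by ext; simp [body]
  rw [this]
  exact MeasurableSet.iInter fun i =>
    (isClosed_le (cont_L L i).abs continuous_const).measurableSet

theorem GG_outer (r : Fin n → ℝ) :
    ∫ y : Fin k → ℝ, GG L p t (y, r) = Vol L (fun i => t i + r i) * ∏ i, wg p (r i) := by
  have h : (fun y : Fin k → ℝ => GG L p t (y, r)) =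
      (body L (fun i => t i + r i)).indicator (fun _ => ∏ i, wg p (r i)) := by
    funext y
    exact GG_eq L p t y r
  rw [h, integral_indicator (body_meas L _), setIntegral_const, smul_eq_mul]
  rfl

theorem GG_nonneg {p : ℝ} (hp : 1 ≤ p) (z : (Fin k → ℝ) × (Fin n → ℝ)) : 0 ≤ GG L p t z := by
  unfold GG
  refine Finset.prod_nonneg fun i _ => ?_
  split_ifs
  · exact (wg_pos hp _).le
  · exact le_rfl

theorem vol_bound (h1 : BasicStatement) (hL : Function.Injective L) (r : Fin n → ℝ) :
    Vol L (fun i => t i + r i) ≤ Vol L t * ∏ i, Real.exp (k * max (r i) 0) := by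
  obtain ⟨-, -, hm, hh⟩ := h1 k (Fin n) L hL
  have h2 : Vol L (fun i => t i + r i) ≤ Vol L (fun i => t i + ∑ j, max (r j) 0) := by
    refine hm _ _ fun i => ?_
    have h3 : r i ≤ ∑ j, max (r j) 0 :=
      (le_max_left _ _).trans (Finset.single_le_sum (f := fun j => max (r j) 0)
        (fun j _ => le_max_right _ _) (Finset.mem_univ i))
    linarith
  refine h2.trans (le_of_eq ?_)
  rw [hh, ← Real.exp_sum, ← Finset.mul_sum, mul_comm]

theorem GG_int (h1 : BasicStatement) (hL : Function.Injective L) {p : ℝ} (hp : 1 ≤ p) :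
    Integrable (GG L p t) ((volume : Measure (Fin k → ℝ)).prod (volume : Measure (Fin n → ℝ))) := by
  rw [integrable_prod_iff' (GG_meas L p t).aestronglyMeasurable]
  constructor
  · refine Eventually.of_forall fun r => ?_
    have h : (fun y : Fin k → ℝ => GG L p t (y, r)) =
        (body L (fun i => t i + r i)).indicator (fun _ => ∏ i, wg p (r i)) := by
      funext y
      exact GG_eq L p t y r
    rw [h, integrable_indicator_iff (body_meas L _)]
    exact integrableOn_const (body_finite L hL _)
  · have h3 : (fun r : Fin n → ℝ => ∫ y : Fin k → ℝ, ‖GG L p t (y, r)‖) =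
        fun r => Vol L (fun i => t i + r i) * ∏ i, wg p (r i) := by
      funext r
      rw [← GG_outer]
      refine integral_congr_ae (Eventually.of_forall fun y => ?_)
      exact Real.norm_of_nonneg (GG_nonneg L t hp _)
    have h4 : Integrable (fun r : Fin n → ℝ => Vol L t *
        ∏ i, (Real.exp (k * max (r i) 0) * wg p (r i))) :=
      (Integrable.fintype_prod (μ := fun _ : Fin n => (volume : Measure ℝ))
        (f := fun (_ : Fin n) (q : ℝ) => Real.exp (k * max q 0) * wg p q)
        (fun _ => wg_int hp (Nat.cast_nonneg k))).const_mul (Vol L t)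
    refine h4.mono' ?_ ?_
    · have h5 : StronglyMeasurable (fun r : Fin n → ℝ => ∫ y : Fin k → ℝ, ‖GG L p t (y, r)‖) :=
        StronglyMeasurable.integral_prod_left' (f := fun z => ‖GG L p t z‖)
          (GG_meas L p t).norm.stronglyMeasurable
      exact h5.aestronglyMeasurable
    · refine Eventually.of_forall fun r => ?_
      have h6 := congrFun h3 r
      rw [h6]
      have h7 : 0 ≤ ∏ i, wg p (r i) := Finset.prod_nonneg fun i _ => (wg_pos hp _).le
      have h8 : 0 ≤ Vol L (fun i => t i + r i) := ENNReal.toReal_nonneg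
      rw [Real.norm_of_nonneg (mul_nonneg h8 h7), Finset.prod_mul_distrib, ← mul_assoc]
      exact mul_le_mul_of_nonneg_right (vol_bound L t h1 hL r) h7

end

theorem mix (h1 : BasicStatement) : MixStatement := by
  intro k n L hL p hp t
  have hG := GG_int L t h1 hL hp
  refine ⟨?_, ?_, ?_⟩
  · have h := hG.integral_prod_left
    refine h.congr (Eventually.of_forall fun y => ?_)
    exact GG_inner L t hp y
  · have h := hG.integral_prod_right
    refine h.congr (Eventually.of_forall fun r => ?_)
    exact GG_outer L p t r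
  · have h := integral_integral_swap (f := fun y r => GG L p t (y, r)) hG
    have e1 : (fun y : Fin k → ℝ => ∫ r : Fin n → ℝ, GG L p t (y, r)) =
        fun y => Real.exp (-∑ i, |Real.exp (-(t i)) * L y i| ^ p) :=
      funext fun y => GG_inner L t hp y
    have e2 : (fun r : Fin n → ℝ => ∫ y : Fin k → ℝ, GG L p t (y, r)) =
        fun r => Vol L (fun i => t i + r i) * ∏ i, wg p (r i) :=
      funext fun r => GG_outer L p t r
    rw [e1, e2] at h
    exact h

end Pool.Agent.Lib.MP_fa837f_gt.TS.H53
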